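import Mathlib

set_option autoImplicit false

namespace Pool.Agent.Results.MP_6d9676_an.VolumeTendsTop

open Set Filter Topology MeasureTheory

/-- The Laplacian of `R^4` on radial functions: `f'' + (3/r) f'`. -/
noncomputable def radLap (f : ℝ → ℝ) (r : ℝ) : ℝ :=
  deriv (deriv f) r + 3 / r * deriv f r

/-- `u` is a (global) solution of the initial value problem `Δ² u = -6 e^{4u}`,
`u(0) = u'(0) = u'''(0) = 0`, `u''(0) = a`. Only the values of `u` on `[0, ∞)` matter; the
solution is extended to a `C^4` function on `ℝ` (for instance the even extension). -/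
structure IsSol (a : ℝ) (u : ℝ → ℝ) : Prop where
  contDiff : ContDiff ℝ 4 u
  zero : u 0 = 0
  d1 : deriv^[1] u 0 = 0
  d2 : deriv^[2] u 0 = a
  d3 : deriv^[3] u 0 = 0
  eqn : ∀ r : ℝ, 0 < r → radLap (radLap u) r = -6 * Real.exp (4 * u r)

/-- The volume of the conformal metric `e^{2u}|dx|²` on `R^4`. -/
noncomputable def vol (u : ℝ → ℝ) : ENNReal :=
  ∫⁻ x : EuclideanSpace ℝ (Fin 4), ENNReal.ofReal (Real.exp (4 * u ‖x‖))

/-- comparison -/
lemma mono_of (f f' : ℝ → ℝ) (c d : ℝ) (hc : ContinuousOn f (Icc c d))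
    (hd : ∀ r, c < r → r < d → HasDerivAt f (f' r) r) (hn : ∀ r, c < r → r < d → 0 ≤ f' r) :
    ∀ r, c ≤ r → r ≤ d → f c ≤ f r := by
  intro r h1 h2
  have hm : MonotoneOn f (Icc c d) := by
    apply monotoneOn_of_deriv_nonneg (convex_Icc c d) hc
    · intro x hx
      rw [interior_Icc] at hx
      exact (hd x hx.1 hx.2).differentiableAt.differentiableWithinAt
    · intro x hx
      rw [interior_Icc] at hx
      rw [(hd x hx.1 hx.2).deriv]
      exact hn x hx.1 hx.2
  exact hm ⟨le_refl _, h1.trans h2⟩ ⟨h1, h2⟩ h1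

/-- The data extracted from a solution. -/
structure Data (a : ℝ) (u u1 u2 u3 u4 : ℝ → ℝ) : Prop where
  h1 : ∀ r, HasDerivAt u (u1 r) r
  h2 : ∀ r, HasDerivAt u1 (u2 r) r
  h3 : ∀ r, HasDerivAt u2 (u3 r) r
  h4 : ∀ r, HasDerivAt u3 (u4 r) r
  z0 : u 0 = 0
  z1 : u1 0 = 0
  z2 : u2 0 = a
  z3 : u3 0 = 0
  eqn : ∀ r, 0 < r → r ^ 3 * u4 r + 6 * r ^ 2 * u3 r + 3 * r * u2 r - 3 * u1 r
    = -6 * (r ^ 3 * Real.exp (4 * u r))

lemma data_of_sol {a : ℝ} {u : ℝ → ℝ} (h : IsSol a u) :
    Data a u (deriv u) (deriv (deriv u)) (deriv (deriv (deriv u)))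
      (deriv (deriv (deriv (deriv u)))) := by
  have c := h.contDiff
  have c1 : ContDiff ℝ 3 (deriv u) := by
    have := ContDiff.iterate_deriv' 3 1 (f := u) (by exact_mod_cast c)
    simpa using this
  have c2 : ContDiff ℝ 2 (deriv (deriv u)) := by
    have := ContDiff.iterate_deriv' 2 1 (f := deriv u) (by exact_mod_cast c1)
    simpa using this
  have c3 : ContDiff ℝ 1 (deriv (deriv (deriv u))) := by
    have := ContDiff.iterate_deriv' 1 1 (f := deriv (deriv u)) (by exact_mod_cast c2)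
    simpa using this
  have h1 : ∀ r, HasDerivAt u (deriv u r) r := fun r =>
    ((c.differentiable (by norm_num)) r).hasDerivAt
  have h2 : ∀ r, HasDerivAt (deriv u) (deriv (deriv u) r) r := fun r =>
    ((c1.differentiable (by norm_num)) r).hasDerivAt
  have h3 : ∀ r, HasDerivAt (deriv (deriv u)) (deriv (deriv (deriv u)) r) r := fun r =>
    ((c2.differentiable (by norm_num)) r).hasDerivAt
  have h4 : ∀ r, HasDerivAt (deriv (deriv (deriv u))) (deriv (deriv (deriv (deriv u))) r) r :=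
    fun r => ((c3.differentiable (by norm_num)) r).hasDerivAt
  refine ⟨h1, h2, h3, h4, h.zero, h.d1, h.d2, h.d3, ?_⟩
  intro r hr
  have hr0 : r ≠ 0 := hr.ne'
  -- first derivative of the radial Laplacian
  have e1 : ∀ s, 0 < s → HasDerivAt (radLap u)
      (deriv (deriv (deriv u)) s + 3 / s * deriv (deriv u) s - 3 / s ^ 2 * deriv u s) s := by
    intro s hs
    have hs0 : s ≠ 0 := hs.ne'
    have hi : HasDerivAt (fun s : ℝ => 3 / s) (-(3 / s ^ 2)) s := by
      have := (hasDerivAt_inv hs0).const_mul 3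
      have h' : (fun s : ℝ => 3 / s) = fun s => 3 * s⁻¹ := by
        funext t; rw [div_eq_mul_inv]
      rw [h']
      exact this.congr_deriv (by field_simp)
    have h' : HasDerivAt (radLap u) (deriv (deriv (deriv u)) s
        + (-(3 / s ^ 2) * deriv u s + 3 / s * deriv (deriv u) s)) s :=
      (h3 s).add (hi.mul (h2 s))
    exact h'.congr_deriv (by ring)
  have e2 : HasDerivAt (deriv (radLap u))
      (deriv (deriv (deriv (deriv u))) r + 3 / r * deriv (deriv (deriv u)) r
        - 3 / r ^ 2 * deriv (deriv u) r - 3 / r ^ 2 * deriv (deriv u) r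
        + 6 / r ^ 3 * deriv u r) r := by
    have hev : deriv (radLap u) =ᶠ[𝓝 r] fun s =>
        deriv (deriv (deriv u)) s + 3 / s * deriv (deriv u) s - 3 / s ^ 2 * deriv u s := by
      filter_upwards [lt_mem_nhds hr] with s hs
      exact (e1 s hs).deriv
    apply HasDerivAt.congr_of_eventuallyEq _ hev
    have hi : HasDerivAt (fun s : ℝ => 3 / s) (-(3 / r ^ 2)) r := by
      have := (hasDerivAt_inv hr0).const_mul 3
      have h' : (fun s : ℝ => 3 / s) = fun s => 3 * s⁻¹ := by
        funext t; rw [div_eq_mul_inv]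
      rw [h']
      exact this.congr_deriv (by field_simp)
    have hi2 : HasDerivAt (fun s : ℝ => 3 / s ^ 2) (-(6 / r ^ 3)) r := by
      have hp : HasDerivAt (fun s : ℝ => s ^ 2) (2 * r) r := by
        simpa using hasDerivAt_pow 2 r
      have := (hp.inv (by positivity)).const_mul 3
      have h' : (fun s : ℝ => 3 / s ^ 2) = fun s => 3 * (s ^ 2)⁻¹ := by
        funext t; rw [div_eq_mul_inv]
      rw [h']
      exact this.congr_deriv (by field_simp; try ring)
    have h' : HasDerivAt (fun s =>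
        deriv (deriv (deriv u)) s + 3 / s * deriv (deriv u) s - 3 / s ^ 2 * deriv u s)
        (deriv (deriv (deriv (deriv u))) r + (-(3 / r ^ 2) * deriv (deriv u) r
          + 3 / r * deriv (deriv (deriv u)) r) -
        (-(6 / r ^ 3) * deriv u r + 3 / r ^ 2 * deriv (deriv u) r)) r :=
      ((h4 r).add (hi.mul (h3 r))).sub (hi2.mul (h2 r))
    exact h'.congr_deriv (by ring)
  have e3 := h.eqn r hr
  have e4 : radLap (radLap u) r = deriv (deriv (deriv (deriv u))) r
      + 3 / r * deriv (deriv (deriv u)) r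
        - 3 / r ^ 2 * deriv (deriv u) r - 3 / r ^ 2 * deriv (deriv u) r
        + 6 / r ^ 3 * deriv u r + 3 / r * (deriv (deriv (deriv u)) r
        + 3 / r * deriv (deriv u) r - 3 / r ^ 2 * deriv u r) := by
    rw [show radLap (radLap u) r = deriv (deriv (radLap u)) r + 3 / r * deriv (radLap u) r from rfl,
      e2.deriv, (e1 r hr).deriv]
  rw [e4] at e3
  have e5 : r ^ 3 * (deriv (deriv (deriv (deriv u))) r
      + 3 / r * deriv (deriv (deriv u)) r
        - 3 / r ^ 2 * deriv (deriv u) r - 3 / r ^ 2 * deriv (deriv u) r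
        + 6 / r ^ 3 * deriv u r + 3 / r * (deriv (deriv (deriv u)) r
        + 3 / r * deriv (deriv u) r - 3 / r ^ 2 * deriv u r)) =
      r ^ 3 * deriv (deriv (deriv (deriv u))) r + 6 * r ^ 2 * deriv (deriv (deriv u)) r
        + 3 * r * deriv (deriv u) r - 3 * deriv u r := by
    field_simp
    ring
  rw [← e5, e3]
  ring

/-- `r³ w'(r)`, where `w = Δu`. -/
def G (u1 u2 u3 : ℝ → ℝ) (r : ℝ) : ℝ := r ^ 3 * u3 r + 3 * r ^ 2 * u2 r - 3 * r * u1 r

section
variable {a : ℝ} {u u1 u2 u3 u4 : ℝ → ℝ}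

lemma G_hasDeriv (D : Data a u u1 u2 u3 u4) (r : ℝ) (hr : 0 ≤ r) :
    HasDerivAt (G u1 u2 u3) (-6 * (r ^ 3 * Real.exp (4 * u r))) r := by
  have p3 : HasDerivAt (fun s : ℝ => s ^ 3) (3 * r ^ 2) r := by
    simpa using hasDerivAt_pow 3 r
  have p2 : HasDerivAt (fun s : ℝ => 3 * s ^ 2) (3 * (2 * r)) r := by
    have := (hasDerivAt_pow 2 r).const_mul 3
    simpa using this
  have p1 : HasDerivAt (fun s : ℝ => 3 * s) 3 r := by
    simpa using (hasDerivAt_id r).const_mul 3
  have h := ((p3.mul (D.h4 r)).add (p2.mul (D.h3 r))).sub (p1.mul (D.h2 r))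
  have h' : HasDerivAt (G u1 u2 u3) (3 * r ^ 2 * u3 r + r ^ 3 * u4 r
      + (3 * (2 * r) * u2 r + 3 * r ^ 2 * u3 r) - (3 * u1 r + 3 * r * u2 r)) r := h
  refine h'.congr_deriv ?_
  rcases hr.eq_or_lt with h0 | h0
  · rw [← h0, D.z1]; ring
  · rw [← D.eqn r h0]; ring

lemma G_zero : G u1 u2 u3 0 = 0 := by simp [G]

lemma cont_u (D : Data a u u1 u2 u3 u4) : Continuous u :=
  continuous_iff_continuousAt.2 fun r => (D.h1 r).continuousAt

/-- `G = -6 ∫ s³ e^{4u}`. -/
lemma G_eq (D : Data a u u1 u2 u3 u4) (r : ℝ) (hr : 0 ≤ r) :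
    G u1 u2 u3 r = -6 * ∫ s in (0 : ℝ)..r, s ^ 3 * Real.exp (4 * u s) := by
  have hcu := cont_u D
  have hc : Continuous fun s : ℝ => -6 * (s ^ 3 * Real.exp (4 * u s)) := by fun_prop
  have := intervalIntegral.integral_eq_sub_of_hasDerivAt (a := 0) (b := r)
    (f := G u1 u2 u3) (f' := fun s => -6 * (s ^ 3 * Real.exp (4 * u s)))
    (fun x hx => G_hasDeriv D x (by rw [uIcc_of_le hr] at hx; exact hx.1))
    (hc.intervalIntegrable _ _)
  rw [G_zero, sub_zero, intervalIntegral.integral_const_mul] at this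
  exact this.symm

/-- the Laplacian, extended continuously to `0` -/
noncomputable def W (u1 u2 : ℝ → ℝ) (r : ℝ) : ℝ := u2 r + 3 * dslope u1 0 r

lemma W_cont (D : Data a u u1 u2 u3 u4) : Continuous (W u1 u2) := by
  have hu2 : Continuous u2 := continuous_iff_continuousAt.2 fun r => (D.h3 r).continuousAt
  have hd : Continuous (dslope u1 0) := by
    rw [continuous_iff_continuousAt]
    intro r
    rcases eq_or_ne r 0 with h | h
    · subst h
      exact continuousAt_dslope_same.2 (D.h2 0).differentiableAt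
    · exact (continuousAt_dslope_of_ne h).2 (D.h2 r).continuousAt
  exact hu2.add (hd.const_smul (3 : ℝ))

lemma W_of_ne (D : Data a u u1 u2 u3 u4) {r : ℝ} (hr : r ≠ 0) :
    W u1 u2 r = u2 r + 3 * (u1 r / r) := by
  unfold W
  rw [dslope_of_ne _ hr, slope_def_field, D.z1]
  simp

lemma W_zero (D : Data a u u1 u2 u3 u4) : W u1 u2 0 = 4 * a := by
  unfold W
  rw [dslope_same, (D.h2 0).deriv, D.z2]
  ring

lemma W_hasDeriv (D : Data a u u1 u2 u3 u4) {r : ℝ} (hr : 0 < r) :
    HasDerivAt (W u1 u2) (G u1 u2 u3 r / r ^ 3) r := by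
  have hev : W u1 u2 =ᶠ[𝓝 r] fun s => u2 s + 3 * (u1 s / s) := by
    filter_upwards [lt_mem_nhds hr] with s hs
    exact W_of_ne D hs.ne'
  apply HasDerivAt.congr_of_eventuallyEq _ hev
  have h := (D.h3 r).add (((D.h2 r).div (hasDerivAt_id r) hr.ne').const_mul 3)
  have h' : HasDerivAt (fun s => u2 s + 3 * (u1 s / s))
      (u3 r + 3 * ((u2 r * r - u1 r * 1) / r ^ 2)) r := h
  refine h'.congr_deriv ?_
  unfold G
  field_simp
  ring

/-- Main estimate. -/
lemma main_est (D : Data a u u1 u2 u3 u4) (C K : ℝ) (hC : 0 ≤ C) (hK : 0 < K)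
    (hKC : 3 * C ≤ K) (ha : 1 ≤ a) (ha2 : Real.exp (2 * K) * K ≤ a)
    (hE : ∀ r, 0 ≤ r → -G u1 u2 u3 r / 6 ≤ C) : False := by
  have ha0 : 0 < a := by linarith
  have hcu := cont_u D
  have hcu1 : Continuous u1 := continuous_iff_continuousAt.2 fun r => (D.h2 r).continuousAt
  have hcW := W_cont D
  -- step 1: G ≤ 0
  have hcG : ∀ d : ℝ, ContinuousOn (G u1 u2 u3) (Icc 0 d) := fun d r hr =>
    (G_hasDeriv D r hr.1).continuousAt.continuousWithinAt
  have s1 : ∀ r, 0 ≤ r → G u1 u2 u3 r ≤ 0 := by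
    intro r hr
    have := mono_of (fun r => -G u1 u2 u3 r) (fun r => 6 * (r ^ 3 * Real.exp (4 * u r))) 0 r
      (hcG r).neg
      (fun s hs _ => by
        exact (G_hasDeriv D s hs.le).neg.congr_deriv (by ring))
      (fun s hs _ => by positivity) r hr le_rfl
    simp only [G_zero] at this
    linarith
  -- step 2: W ≤ 4a
  have s2 : ∀ r, 0 ≤ r → W u1 u2 r ≤ 4 * a := by
    intro r hr
    have := mono_of (fun r => -W u1 u2 r) (fun r => -(G u1 u2 u3 r / r ^ 3)) 0 r
      hcW.neg.continuousOn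
      (fun s hs _ => (W_hasDeriv D hs).neg)
      (fun s hs _ => by
        have h1 := s1 s hs.le
        have h2 : G u1 u2 u3 s / s ^ 3 ≤ 0 := div_nonpos_of_nonpos_of_nonneg h1 (by positivity)
        linarith) r hr le_rfl
    simp only [W_zero D] at this
    linarith
  -- derivative of r³u1
  have hP : ∀ r, 0 < r → HasDerivAt (fun s => s ^ 3 * u1 s) (r ^ 3 * W u1 u2 r) r := by
    intro r hr
    have p3 : HasDerivAt (fun s : ℝ => s ^ 3) (3 * r ^ 2) r := by
      simpa using hasDerivAt_pow 3 r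
    have h' : HasDerivAt (fun s => s ^ 3 * u1 s) (3 * r ^ 2 * u1 r + r ^ 3 * u2 r) r :=
      p3.mul (D.h2 r)
    refine h'.congr_deriv ?_
    rw [W_of_ne D hr.ne']
    field_simp
    ring
  have hQ : ∀ (c r : ℝ), HasDerivAt (fun s : ℝ => c * s ^ 4) (4 * c * r ^ 3) r := by
    intro c r
    exact ((hasDerivAt_pow 4 r).const_mul c).congr_deriv (by push_cast; ring)
  have hR : ∀ (c r : ℝ), HasDerivAt (fun s : ℝ => c * s ^ 2) (2 * c * r) r := by
    intro c r
    exact ((hasDerivAt_pow 2 r).const_mul c).congr_deriv (by push_cast; ring)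
  -- step 3: u1 ≤ a r
  have s3 : ∀ r, 0 < r → u1 r ≤ a * r := by
    intro r hr
    have := mono_of (fun r => a * r ^ 4 - r ^ 3 * u1 r)
      (fun r => 4 * a * r ^ 3 - r ^ 3 * W u1 u2 r) 0 r
      (by fun_prop)
      (fun s hs _ => (hQ a s).sub (hP s hs))
      (fun s hs _ => by
        have h1 := s2 s hs.le
        have h2 : 0 ≤ s ^ 3 := by positivity
        nlinarith) r hr.le le_rfl
    have h3 : r ^ 3 * u1 r ≤ r ^ 3 * (a * r) := by
      have h4 : a * r ^ 4 = r ^ 3 * (a * r) := by ring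
      simp at this
      linarith
    exact le_of_mul_le_mul_left h3 (by positivity)
  -- step 4: u ≤ a r²/2
  have s4 : ∀ r, 0 ≤ r → u r ≤ a / 2 * r ^ 2 := by
    intro r hr
    have := mono_of (fun r => a / 2 * r ^ 2 - u r) (fun r => 2 * (a / 2) * r - u1 r) 0 r
      (by fun_prop)
      (fun s hs _ => (hR (a / 2) s).sub (D.h1 s))
      (fun s hs _ => by
        have h1 := s3 s hs
        linarith) r hr le_rfl
    simp [D.z0] at this
    linarith
  -- the radius r2
  obtain ⟨r2, hr2, hr2a⟩ : ∃ r2 : ℝ, 0 < r2 ∧ a * r2 ^ 2 = K := by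
    refine ⟨Real.sqrt (K / a), Real.sqrt_pos.2 (by positivity), ?_⟩
    rw [Real.sq_sqrt (by positivity)]
    field_simp
  -- step 5
  have s5 : ∀ r, 0 ≤ r → r ≤ r2 → -G u1 u2 u3 r / 6 ≤ Real.exp (2 * K) / 4 * r ^ 4 := by
    intro r hr hrr
    have := mono_of (fun r => Real.exp (2 * K) / 4 * r ^ 4 + 1 / 6 * G u1 u2 u3 r)
      (fun r => 4 * (Real.exp (2 * K) / 4) * r ^ 3
        + 1 / 6 * (-6 * (r ^ 3 * Real.exp (4 * u r)))) 0 r
      ((by fun_prop : Continuous fun r : ℝ => Real.exp (2 * K) / 4 * r ^ 4).continuousOn.add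
        ((hcG r).const_smul (1 / 6 : ℝ)))
      (fun s hs _ => (hQ _ s).add ((G_hasDeriv D s hs.le).const_mul (1 / 6)))
      (fun s hs hsr => by
        have h1 := s4 s hs.le
        have h2 : 4 * u s ≤ 2 * K := by
          have h3 : a * s ^ 2 ≤ a * r2 ^ 2 := by
            apply mul_le_mul_of_nonneg_left _ ha0.le
            exact pow_le_pow_left₀ hs.le (hsr.le.trans hrr) 2
          linarith
        have h3 : Real.exp (4 * u s) ≤ Real.exp (2 * K) := Real.exp_le_exp.2 h2
        have h4 : s ^ 3 * Real.exp (4 * u s) ≤ s ^ 3 * Real.exp (2 * K) :=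
          mul_le_mul_of_nonneg_left h3 (by positivity)
        linarith) r hr le_rfl
    simp only [G_zero] at this
    linarith
  -- step 6
  have hK2 : 3 / 4 * Real.exp (2 * K) * r2 ^ 2 ≤ a := by
    have h1 : r2 ^ 2 ≤ K := by
      have : 1 * r2 ^ 2 ≤ a * r2 ^ 2 := mul_le_mul_of_nonneg_right ha (by positivity)
      linarith
    have h2 : Real.exp (2 * K) * r2 ^ 2 ≤ Real.exp (2 * K) * K :=
      mul_le_mul_of_nonneg_left h1 (by positivity)
    have h3 : 0 ≤ Real.exp (2 * K) * r2 ^ 2 := by positivity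
    linarith
  have s6 : ∀ r, 0 ≤ r → r ≤ r2 → 3 * a ≤ W u1 u2 r := by
    intro r hr hrr
    have := mono_of (fun r => W u1 u2 r + 3 / 4 * Real.exp (2 * K) * r ^ 2)
      (fun r => G u1 u2 u3 r / r ^ 3 + 2 * (3 / 4 * Real.exp (2 * K)) * r) 0 r
      (hcW.add (by fun_prop)).continuousOn
      (fun s hs _ => (W_hasDeriv D hs).add (hR _ s))
      (fun s hs hsr => by
        have h1 := s5 s hs.le (hsr.le.trans hrr)
        have h2 : -(2 * (3 / 4 * Real.exp (2 * K)) * s) ≤ G u1 u2 u3 s / s ^ 3 := by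
          rw [le_div_iff₀ (by positivity)]
          have h3 : -(2 * (3 / 4 * Real.exp (2 * K)) * s) * s ^ 3
            = -6 * (Real.exp (2 * K) / 4 * s ^ 4) := by ring
          rw [h3]
          linarith
        linarith) r hr le_rfl
    simp only [W_zero D] at this
    have h4 : 3 / 4 * Real.exp (2 * K) * r ^ 2 ≤ 3 / 4 * Real.exp (2 * K) * r2 ^ 2 := by
      apply mul_le_mul_of_nonneg_left _ (by positivity)
      exact pow_le_pow_left₀ hr hrr 2
    norm_num at this
    linarith
  -- step 7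
  have s7 : ∀ r, r2 ≤ r → 2 * a ≤ W u1 u2 r := by
    intro r hr
    have hr0 : 0 < r := hr2.trans_le hr
    have hi2 : ∀ s : ℝ, 0 < s → HasDerivAt (fun s : ℝ => 3 * C / s ^ 2) (-(6 * C / s ^ 3)) s := by
      intro s hs
      have hp : HasDerivAt (fun s : ℝ => s ^ 2) (2 * s) s := by
        simpa using hasDerivAt_pow 2 s
      have := (hp.inv (by positivity)).const_mul (3 * C)
      have h' : (fun s : ℝ => 3 * C / s ^ 2) = fun s => 3 * C * (s ^ 2)⁻¹ := by
        funext t; rw [div_eq_mul_inv]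
      rw [h']
      exact this.congr_deriv (by field_simp; try ring)
    have := mono_of (fun r => W u1 u2 r - 3 * C / r ^ 2)
      (fun r => G u1 u2 u3 r / r ^ 3 - -(6 * C / r ^ 3)) r2 r
      (hcW.continuousOn.sub (fun s hs =>
        (hi2 s (hr2.trans_le hs.1)).continuousAt.continuousWithinAt))
      (fun s hs _ => (W_hasDeriv D (hr2.trans hs)).sub (hi2 s (hr2.trans hs)))
      (fun s hs _ => by
        have hs0 : 0 < s := hr2.trans hs
        have h1 := hE s hs0.le
        have h2 : G u1 u2 u3 s / s ^ 3 - -(6 * C / s ^ 3) = (G u1 u2 u3 s + 6 * C) / s ^ 3 := by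
          ring
        rw [h2]
        apply div_nonneg _ (by positivity)
        linarith) r hr le_rfl
    have h3 : 3 * C / r2 ^ 2 ≤ a := by
      rw [div_le_iff₀ (by positivity), hr2a]
      exact hKC
    have h4 : 0 ≤ 3 * C / r ^ 2 := by positivity
    have h5 := s6 r2 hr2.le le_rfl
    linarith
  -- step 8
  have s8 : ∀ r, 0 < r → 2 * a ≤ W u1 u2 r := by
    intro r hr
    rcases le_total r r2 with h | h
    · have := s6 r hr.le h
      linarith
    · exact s7 r h
  have s9 : ∀ r, 0 < r → 0 ≤ u1 r := by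
    intro r hr
    have := mono_of (fun r => r ^ 3 * u1 r) (fun r => r ^ 3 * W u1 u2 r) 0 r
      (by fun_prop)
      (fun s hs _ => hP s hs)
      (fun s hs _ => by
        have h1 := s8 s hs
        have h2 : 0 ≤ W u1 u2 s := by linarith
        positivity) r hr.le le_rfl
    have h3 : r ^ 3 * 0 ≤ r ^ 3 * u1 r := by
      simp at this
      simpa using this
    exact le_of_mul_le_mul_left h3 (by positivity)
  have s10 : ∀ r, 0 ≤ r → 0 ≤ u r := by
    intro r hr
    have := mono_of u u1 0 r hcu.continuousOn (fun s _ _ => D.h1 s) (fun s hs _ => s9 s hs)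
      r hr le_rfl
    rw [D.z0] at this
    exact this
  have s11 : ∀ r, 0 ≤ r → 1 / 4 * r ^ 4 ≤ -G u1 u2 u3 r / 6 := by
    intro r hr
    have := mono_of (fun r => -(1 / 4) * r ^ 4 + -(1 / 6) * G u1 u2 u3 r)
      (fun r => 4 * (-(1 / 4)) * r ^ 3 + -(1 / 6) * (-6 * (r ^ 3 * Real.exp (4 * u r)))) 0 r
      ((by fun_prop : Continuous fun r : ℝ => -(1 / 4) * r ^ 4).continuousOn.add
        ((hcG r).const_smul (-(1 / 6) : ℝ)))
      (fun s hs _ => (hQ _ s).add ((G_hasDeriv D s hs.le).const_mul _))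
      (fun s hs _ => by
        have h1 := s10 s hs.le
        have h3 : 1 ≤ Real.exp (4 * u s) := Real.one_le_exp (by linarith)
        have h4 : s ^ 3 * 1 ≤ s ^ 3 * Real.exp (4 * u s) :=
          mul_le_mul_of_nonneg_left h3 (by positivity)
        linarith) r hr le_rfl
    simp only [G_zero] at this
    linarith
  have s12 := s11 (4 * (C + 1)) (by positivity)
  have s13 := hE (4 * (C + 1)) (by positivity)
  have s14 : C + 1 ≤ (C + 1) ^ 4 := by
    have : (C + 1) ^ 1 ≤ (C + 1) ^ 4 := pow_le_pow_right₀ (by linarith) (by norm_num)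
    simpa using this
  have s15 : 1 / 4 * (4 * (C + 1)) ^ 4 = 64 * (C + 1) ^ 4 := by ring
  rw [s15] at s12
  linarith

end

/-- bound of the radial integral by the volume -/
lemma radial_bound (u : ℝ → ℝ) (hu : Continuous u) (C : ℝ) (hC : 0 ≤ C)
    (hV : vol u ≤ ENNReal.ofReal C) (r : ℝ) (hr : 0 ≤ r) :
    4 * (volume : Measure (EuclideanSpace ℝ (Fin 4))).real (Metric.ball 0 1) *
      (∫ s in (0 : ℝ)..r, s ^ 3 * Real.exp (4 * u s)) ≤ C := by
  have hcont : Continuous fun x : EuclideanSpace ℝ (Fin 4) => Real.exp (4 * u ‖x‖) := by fun_prop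
  have hint : Integrable (fun x : EuclideanSpace ℝ (Fin 4) => Real.exp (4 * u ‖x‖)) volume := by
    refine ⟨hcont.aestronglyMeasurable, ?_⟩
    rw [hasFiniteIntegral_iff_ofReal (Eventually.of_forall fun x => by positivity)]
    exact lt_of_le_of_lt hV ENNReal.ofReal_lt_top
  have h1 := (integrable_fun_norm_addHaar (E := EuclideanSpace ℝ (Fin 4)) volume
    (f := fun s : ℝ => Real.exp (4 * u s))).1 hint
  have h2 := integral_fun_norm_addHaar (E := EuclideanSpace ℝ (Fin 4)) volume
    (f := fun s : ℝ => Real.exp (4 * u s))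
  simp only [finrank_euclideanSpace, Fintype.card_fin] at h1 h2
  have h3 : ∫ x : EuclideanSpace ℝ (Fin 4), Real.exp (4 * u ‖x‖) ≤ C := by
    rw [integral_eq_lintegral_of_nonneg_ae (Eventually.of_forall fun x => by positivity)
      hcont.aestronglyMeasurable]
    exact ENNReal.toReal_le_of_le_ofReal hC hV
  rw [h2] at h3
  have h4 : ∫ s in (0 : ℝ)..r, s ^ 3 * Real.exp (4 * u s) ≤
      ∫ y in Ioi (0 : ℝ), y ^ (4 - 1) • Real.exp (4 * u y) := by
    rw [intervalIntegral.integral_of_le hr]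
    apply setIntegral_mono_set h1
    · filter_upwards [ae_restrict_mem measurableSet_Ioi] with y hy
      have hy' : (0 : ℝ) < y := hy
      simp only [Pi.zero_apply, smul_eq_mul]
      positivity
    · exact Filter.Eventually.of_forall fun y hy => hy.1
  have h5 : 0 ≤ (volume : Measure (EuclideanSpace ℝ (Fin 4))).real (Metric.ball 0 1) :=
    measureReal_nonneg
  calc _ ≤ 4 * (volume : Measure (EuclideanSpace ℝ (Fin 4))).real (Metric.ball 0 1) *
      ∫ y in Ioi (0 : ℝ), y ^ (4 - 1) • Real.exp (4 * u y) :=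
        mul_le_mul_of_nonneg_left h4 (by positivity)
    _ ≤ C := by
      refine le_trans (le_of_eq ?_) h3
      simp only [smul_eq_mul, nsmul_eq_mul]
      push_cast
      ring

/-- **Main theorem.** The volumes tend to infinity as `a → +∞`. -/
theorem result :
    (∀ C : ℝ, ∃ A : ℝ, ∀ a : ℝ, A ≤ a → ∀ u : ℝ → ℝ, IsSol a u → ENNReal.ofReal C < vol u) ∧
    (∀ U : ℝ → ℝ → ℝ, (∀ᶠ a in atTop, IsSol a (U a)) →
      Tendsto (fun a => vol (U a)) atTop (𝓝 ⊤)) := by
  have key : ∀ C : ℝ, ∃ A : ℝ, ∀ a : ℝ, A ≤ a → ∀ u : ℝ → ℝ, IsSol a u →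
      ENNReal.ofReal C < vol u := by
    intro C0
    set C : ℝ := max C0 0 with hCdef
    have hC : 0 ≤ C := le_max_right _ _
    set b : ℝ := 4 * (volume : Measure (EuclideanSpace ℝ (Fin 4))).real (Metric.ball 0 1) with hb
    have hb0 : 0 < b := by
      have h1 : (volume : Measure (EuclideanSpace ℝ (Fin 4))) (Metric.ball 0 1) ≠ 0 :=
        (Metric.measure_ball_pos volume 0 one_pos).ne'
      have h2 : (volume : Measure (EuclideanSpace ℝ (Fin 4))) (Metric.ball 0 1) ≠ ⊤ :=
        measure_ball_lt_top.ne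
      have : 0 < (volume : Measure (EuclideanSpace ℝ (Fin 4))).real (Metric.ball 0 1) :=
        ENNReal.toReal_pos h1 h2
      positivity
    set K : ℝ := 3 * (C / b) + 1 with hK
    have hCb : 0 ≤ C / b := by positivity
    refine ⟨max 1 (Real.exp (2 * K) * K), fun a ha u hu => ?_⟩
    by_contra hcon
    rw [not_lt] at hcon
    have hV : vol u ≤ ENNReal.ofReal C := by
      refine hcon.trans (ENNReal.ofReal_le_ofReal (le_max_left _ _))
    have D := data_of_sol hu
    refine main_est D (C / b) K hCb (by linarith) (by linarith)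
      ((le_max_left _ _).trans ha) ((le_max_right _ _).trans ha) ?_
    intro r hr
    have h1 := radial_bound u (cont_u D) C hC hV r hr
    rw [← hb] at h1
    rw [G_eq D r hr, le_div_iff₀ hb0]
    linarith
  refine ⟨key, fun U hU => ?_⟩
  rw [ENNReal.tendsto_nhds_top_iff_nnreal]
  intro x
  obtain ⟨A, hA⟩ := key (x : ℝ)
  filter_upwards [hU, eventually_ge_atTop A] with a ha hAa
  have := hA a hAa (U a) ha
  simpa using this

end Pool.Agent.Results.MP_6d9676_an.VolumeTendsTop
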